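import Pool.Agent.Helper6_lin.Main
import Pool.Agent.Helper6_lin.Lin

/-!
Every cubic graph of girth at least five has a 4-bisection whose two halves are isomorphic linear
forests.
-/

namespace Pool.Agent.Results.MP_1e13ac_co.GirthFive

open Pool.Agent.Helper6_lin

lemma noTri_of_egirth {V : Type} {G : SimpleGraph V} (h : 5 ≤ G.egirth) : NoTri G := by
  classical
  intro a b c hab hbc hac
  rw [SimpleGraph.le_egirth] at h
  have hw := h a (SimpleGraph.Walk.cons hab (SimpleGraph.Walk.cons hbc
    (SimpleGraph.Walk.cons hac.symm SimpleGraph.Walk.nil))) (by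
      simp [SimpleGraph.Walk.isCycle_def, SimpleGraph.Walk.isTrail_def, hab.ne, hab.ne', hbc.ne,
        hbc.ne', hac.ne, hac.ne'])
  simp at hw
  norm_num at hw

lemma noQuad_of_egirth {V : Type} {G : SimpleGraph V} (h : 5 ≤ G.egirth) : NoQuad G := by
  classical
  intro a b c d hac hbd hab hbc hcd hda
  rw [SimpleGraph.le_egirth] at h
  have hw := h a (SimpleGraph.Walk.cons hab (SimpleGraph.Walk.cons hbc
    (SimpleGraph.Walk.cons hcd (SimpleGraph.Walk.cons hda SimpleGraph.Walk.nil)))) (by
      simp [SimpleGraph.Walk.isCycle_def, SimpleGraph.Walk.isTrail_def, hab.ne, hab.ne', hbc.ne,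
        hbc.ne', hcd.ne, hcd.ne', hda.ne, hda.ne', hac, hac.symm, hbd, hbd.symm])
  simp at hw
  norm_num at hw

/-- Every finite cubic graph of girth at least five has a set `S` of half of its vertices such that
the subgraphs induced on `S` and on its complement are isomorphic linear forests (acyclic, all
degrees at most two) whose components have at most four vertices. -/
theorem result :
    ∀ (V : Type) [Fintype V] [DecidableEq V] (G : SimpleGraph V) [DecidableRel G.Adj],
      G.IsRegularOfDegree 3 → 5 ≤ G.egirth →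
      ∃ S : Set V,
        S.ncard = Sᶜ.ncard ∧
        (∀ c : (G.induce S).ConnectedComponent, c.supp.ncard ≤ 4) ∧
        (∀ c : (G.induce Sᶜ).ConnectedComponent, c.supp.ncard ≤ 4) ∧
        (G.induce S).IsAcyclic ∧
        (∀ v, ((G.induce S).neighborSet v).ncard ≤ 2) ∧
        (G.induce Sᶜ).IsAcyclic ∧
        (∀ v, ((G.induce Sᶜ).neighborSet v).ncard ≤ 2) ∧
        Nonempty (G.induce S ≃g G.induce Sᶜ) := by
  intro V _ _ G _ hG hg
  obtain ⟨c, hc⟩ := main (Fintype.card V) V G rfl hG (noTri_of_egirth hg) (noQuad_of_egirth hg)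
  exact final_of_Bal hc

end Pool.Agent.Results.MP_1e13ac_co.GirthFive
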